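import Pool.Agent.N603.PM.UR
import Pool.Agent.N874.JM.Top

/-!
# Unramified extensions and complete splitting without generators

Project TW (helper874).
-/

set_option autoImplicit false
set_option linter.all false

open Polynomial IsDedekindDomain
open Pool.Agent.N874.PP (nm Ov Ev Sq1 U0 exists_below below_unique)
open Pool.Agent.N874.PM (ov_val val_le val_eq_of ov_down)
open scoped Classical IntermediateField

namespace Pool.Agent.N874.TW

section gen

variable {k F F' : Type} (O O' : Type) [Field k] [Field F] [Field F'] [Algebra F F']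
  [Algebra k[X] F] [Algebra k[X] F'] [IsScalarTower k[X] F F'] [CommRing O] [IsDedekindDomain O]
  [Algebra O F] [IsFractionRing O F] [Algebra k[X] O] [IsScalarTower k[X] O F]
  [IsIntegralClosure O k[X] F]
  [CommRing O'] [IsDedekindDomain O'] [Algebra O' F'] [IsFractionRing O' F'] [Algebra k[X] O']
  [IsScalarTower k[X] O' F'] [IsIntegralClosure O' k[X] F']

/-- The primes at which `f'(θ)` is a unit are unramified. -/
theorem unr_top [FiniteDimensional F F'] [Algebra.IsSeparable F F'] {f : k[X][X]} {θ : F'}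
    (hmon : f.Monic) (hroot : aeval θ f = 0) (htop : F⟮θ⟯ = ⊤) (𝔓 : HeightOneSpectrum O')
    (h3 : 𝔓.valuation F' (aeval θ (derivative f)) = 1) :
    ∃ w : HeightOneSpectrum O, ∀ x : F, 𝔓.valuation F' (algebraMap F F' x) = w.valuation F x := by
  let _ : Algebra O F' := ((algebraMap F F').comp (algebraMap O F)).toAlgebra
  have t1 : IsScalarTower O F F' := IsScalarTower.of_algebraMap_eq fun _ => rfl
  have t2 : IsScalarTower k[X] O F' := IsScalarTower.of_algebraMap_eq fun x => by
    rw [IsScalarTower.algebraMap_apply k[X] F F', IsScalarTower.algebraMap_apply k[X] O F,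
      IsScalarTower.algebraMap_apply O F F']
  have t3 : Algebra.IsIntegral k[X] O := IsIntegralClosure.isIntegral_algebra k[X] F
  let l : O →ₐ[k[X]] O' := IsIntegralClosure.lift k[X] O' F'
  let _ : Algebra O O' := l.toRingHom.toAlgebra
  have t4 : IsScalarTower O O' F' := IsScalarTower.of_algebraMap_eq fun x =>
    (IsIntegralClosure.algebraMap_lift k[X] O' F' x).symm
  have t5 : IsScalarTower k[X] O O' := IsScalarTower.of_algebraMap_eq fun x =>
    (l.commutes x).symm
  have t6 : IsIntegralClosure O' O F' := IsIntegralClosure.tower_top (R := k[X])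
  have t7 : Algebra.IsIntegral O O' := IsIntegralClosure.isIntegral_algebra O F'
  have hinj : Function.Injective (algebraMap O O') := by
    have h1 : Function.Injective (algebraMap O F') := by
      rw [IsScalarTower.algebraMap_eq O F F']
      exact (algebraMap F F').injective.comp (IsFractionRing.injective O F)
    rw [IsScalarTower.algebraMap_eq O O' F'] at h1
    exact Function.Injective.of_comp h1
  have hp0 : 𝔓.asIdeal.under O ≠ ⊥ := by
    intro h0
    exact 𝔓.ne_bot (Ideal.eq_bot_of_comap_eq_bot h0)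
  let v : HeightOneSpectrum O := ⟨𝔓.asIdeal.under O, inferInstance, hp0⟩
  have hl : 𝔓.asIdeal.LiesOver v.asIdeal := ⟨rfl⟩
  have hint : IsIntegral k[X] θ := ⟨f, hmon, by rw [← aeval_def]; exact hroot⟩
  obtain ⟨y, hy⟩ := (IsIntegralClosure.isIntegral_iff (R := k[X]) (A := O')).1 hint
  have hadj : Algebra.adjoin F {algebraMap O' F' y} = ⊤ := by
    have h1 : IsIntegral F θ := hint.tower_top
    have h2 := IntermediateField.adjoin_simple_toSubalgebra_of_isAlgebraic h1.isAlgebraic
    rw [hy, ← h2, htop, IntermediateField.top_toSubalgebra]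
  refine ⟨v, fun x => Pool.Agent.N603.PM.UR.core O F F' O' y hadj 𝔓 ?_ v x⟩
  intro hmem
  have : FaithfulSMul O O' := (faithfulSMul_iff_algebraMap_injective O O').2 hinj
  have : Module.IsTorsionFree O O' := inferInstance
  have hgy : aeval y f = 0 := by
    apply IsFractionRing.injective O' F'
    rw [map_zero, ← Polynomial.aeval_algebraMap_apply, hy]
    exact hroot
  have hint' : IsIntegral O y := IsIntegral.tower_top (R := k[X]) ⟨f, hmon, hgy⟩
  have hdvd : minpoly O y ∣ f.map (algebraMap k[X] O) := by
    apply minpoly.isIntegrallyClosed_dvd hint'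
    rw [aeval_map_algebraMap]
    exact hgy
  obtain ⟨q, hq⟩ := hdvd
  have h1 : aeval y (derivative f) = aeval y (derivative (minpoly O y)) * aeval y q := by
    have h2 := congrArg (fun p : O[X] => aeval y (derivative p)) hq
    simp only [derivative_mul, map_add, map_mul, minpoly.aeval, zero_mul, add_zero] at h2
    rw [← h2, derivative_map, aeval_map_algebraMap]
  have h2 : aeval y (derivative f) ∈ 𝔓.asIdeal := by
    rw [h1]
    exact Ideal.mul_mem_right _ _ hmem
  have h4 : 𝔓.valuation F' (algebraMap O' F' (aeval y (derivative f))) < 1 := by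
    rw [HeightOneSpectrum.valuation_lt_one_iff_mem]
    exact h2
  rw [← Polynomial.aeval_algebraMap_apply, hy, h3] at h4
  exact lt_irrefl _ h4

variable (k) in
include k in
/-- A prime over a given prime, with the ramification index. -/
theorem exists_over [FiniteDimensional F F'] [Algebra.IsSeparable F F']
    (v : HeightOneSpectrum O) :
    ∃ (𝔓 : HeightOneSpectrum O') (e : ℕ), ∀ x : F, 𝔓.valuation F' (algebraMap F F' x) =
      v.valuation F x ^ e := by
  let _ : Algebra O F' := ((algebraMap F F').comp (algebraMap O F)).toAlgebra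
  have t1 : IsScalarTower O F F' := IsScalarTower.of_algebraMap_eq fun _ => rfl
  have t2 : IsScalarTower k[X] O F' := IsScalarTower.of_algebraMap_eq fun x => by
    rw [IsScalarTower.algebraMap_apply k[X] F F', IsScalarTower.algebraMap_apply k[X] O F,
      IsScalarTower.algebraMap_apply O F F']
  have t3 : Algebra.IsIntegral k[X] O := IsIntegralClosure.isIntegral_algebra k[X] F
  let l : O →ₐ[k[X]] O' := IsIntegralClosure.lift k[X] O' F'
  let _ : Algebra O O' := l.toRingHom.toAlgebra
  have t4 : IsScalarTower O O' F' := IsScalarTower.of_algebraMap_eq fun x =>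
    (IsIntegralClosure.algebraMap_lift k[X] O' F' x).symm
  have t5 : IsScalarTower k[X] O O' := IsScalarTower.of_algebraMap_eq fun x =>
    (l.commutes x).symm
  have t6 : IsIntegralClosure O' O F' := IsIntegralClosure.tower_top (R := k[X])
  have t7 : Algebra.IsIntegral O O' := IsIntegralClosure.isIntegral_algebra O F'
  have hinj : Function.Injective (algebraMap O O') := by
    have h1 : Function.Injective (algebraMap O F') := by
      rw [IsScalarTower.algebraMap_eq O F F']
      exact (algebraMap F F').injective.comp (IsFractionRing.injective O F)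
    rw [IsScalarTower.algebraMap_eq O O' F'] at h1
    exact Function.Injective.of_comp h1
  have : FaithfulSMul O O' := (faithfulSMul_iff_algebraMap_injective O O').2 hinj
  have : Module.IsTorsionFree O O' := inferInstance
  have : Module.Finite O O' := IsIntegralClosure.finite O F F' O'
  obtain ⟨Q, -, hQp, hQ⟩ := Ideal.exists_ideal_over_prime_of_isIntegral (S := O') v.asIdeal ⊥
    (by
      intro x hx
      have h1 : algebraMap O O' x = 0 := by simpa using hx
      have h2 : x = 0 := hinj (by rw [h1, map_zero])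
      rw [h2]
      exact zero_mem _)
  have hQ0 : Q ≠ ⊥ := by
    rintro rfl
    apply v.ne_bot
    rw [← hQ]
    exact (RingHom.injective_iff_ker_eq_bot _).1 hinj
  let P : HeightOneSpectrum O' := ⟨Q, hQp, hQ0⟩
  have hl : P.asIdeal.LiesOver v.asIdeal := ⟨hQ.symm⟩
  exact ⟨P, _, fun x => (HeightOneSpectrum.valuation_liesOver F' v P x).symm⟩

theorem exp_pow {a : WithZero (Multiplicative ℤ)} {e : ℕ} (h : a ^ e = WithZero.exp (-1 : ℤ)) :
    e = 1 := by
  have ha : a ≠ 0 := by
    rintro rfl
    rcases Nat.eq_zero_or_pos e with rfl | he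
    · rw [pow_zero] at h
      have : WithZero.exp (0 : ℤ) = WithZero.exp (-1 : ℤ) := by rw [← h]; rfl
      exact absurd (WithZero.exp_injective this) (by norm_num)
    · rw [zero_pow he.ne'] at h
      exact WithZero.exp_ne_zero h.symm
  obtain ⟨m, rfl⟩ : ∃ m : ℤ, a = WithZero.exp m := ⟨WithZero.log a, (WithZero.exp_log ha).symm⟩
  rw [← WithZero.exp_nsmul] at h
  have h1 := WithZero.exp_injective h
  rw [nsmul_eq_mul] at h1
  have h2 : (e : ℤ) ∣ 1 := ⟨-m, by linarith⟩
  have h3 : e ∣ 1 := by exact_mod_cast h2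
  exact Nat.dvd_one.1 h3

end gen

/-! ### Density -/

section dens

variable {k F : Type} (O : Type) {K : Type} [Field k] [Field K] [Algebra k[X] K]
  [Field F] [Algebra K F] [Algebra k[X] F] [IsScalarTower k[X] K F] [CommRing O]
  [IsDedekindDomain O] [Algebra O F] [IsFractionRing O F] [Algebra k[X] O]
  [IsScalarTower k[X] O F]

/-- Complete splitting: approximation by elements of `K`, first step. -/
theorem dens1 {Q : k[X]} (w : HeightOneSpectrum O)
    (h1 : w.valuation F (algebraMap k[X] F Q) = WithZero.exp (-1 : ℤ))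
    (h2 : Function.Surjective ((Ideal.Quotient.mk w.asIdeal).comp (algebraMap k[X] O))) (s : F)
    (hs : s ≠ 0) : ∃ s₀ : K, w.valuation F (s - algebraMap K F s₀) < w.valuation F s := by
  have hQ0 : algebraMap k[X] F Q ≠ 0 := by
    intro h0
    rw [h0, map_zero] at h1
    exact WithZero.exp_ne_zero h1.symm
  obtain ⟨m, hm⟩ : ∃ m : ℤ, w.valuation F s = WithZero.exp m :=
    ⟨WithZero.log _, (WithZero.exp_log ((Valuation.ne_zero_iff _).2 hs)).symm⟩
  -- scaling
  set u : F := s * algebraMap k[X] F Q ^ m with hu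
  have hwu : w.valuation F u = 1 := by
    rw [hu, map_mul, map_zpow₀, h1, hm, ← WithZero.exp_zsmul, ← WithZero.exp_add]
    simp
  obtain ⟨a, ha⟩ := w.exists_valuation_sub_lt_of_integer hwu.le 1
  rw [Units.val_one] at ha
  obtain ⟨c, hc⟩ := h2 (Ideal.Quotient.mk _ a)
  have hca : w.valuation F (algebraMap k[X] F c - algebraMap O F a) < 1 := by
    rw [IsScalarTower.algebraMap_apply k[X] O F, ← map_sub,
      HeightOneSpectrum.valuation_lt_one_iff_mem]
    exact Ideal.Quotient.eq.1 hc
  have huc : w.valuation F (u - algebraMap k[X] F c) < 1 := by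
    have e : u - algebraMap k[X] F c =
        - ((algebraMap O F a - u) + (algebraMap k[X] F c - algebraMap O F a)) := by ring
    rw [e, Valuation.map_neg]
    exact (Valuation.map_add _ _ _).trans_lt (max_lt ha hca)
  have hQm : algebraMap k[X] F Q ^ m ≠ 0 := zpow_ne_zero _ hQ0
  refine ⟨algebraMap k[X] K c * (algebraMap k[X] K Q ^ m)⁻¹, ?_⟩
  have e1 : s - algebraMap K F (algebraMap k[X] K c * (algebraMap k[X] K Q ^ m)⁻¹) =
      (u - algebraMap k[X] F c) * (algebraMap k[X] F Q ^ m)⁻¹ := by
    rw [map_mul, map_inv₀, map_zpow₀, ← IsScalarTower.algebraMap_apply k[X] K F,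
      ← IsScalarTower.algebraMap_apply k[X] K F, hu, sub_mul, mul_assoc, mul_inv_cancel₀ hQm,
      mul_one]
  have e2 : s = u * (algebraMap k[X] F Q ^ m)⁻¹ := by
    rw [hu, mul_assoc, mul_inv_cancel₀ hQm, mul_one]
  rw [e1]
  conv_rhs => rw [e2]
  rw [map_mul, map_mul, hwu]
  refine (mul_lt_mul_iff_left₀ ?_).2 huc
  rw [zero_lt_iff]
  exact (Valuation.ne_zero_iff _).2 (inv_ne_zero hQm)

/-- Approximation by elements of `K`. -/
theorem dens2 (w : HeightOneSpectrum O)
    (h : ∀ s : F, s ≠ 0 → ∃ s₀ : K, w.valuation F (s - algebraMap K F s₀) < w.valuation F s)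
    (s : F) {ε : WithZero (Multiplicative ℤ)} (hε : ε ≠ 0) :
    ∃ s₀ : K, w.valuation F (s - algebraMap K F s₀) < ε := by
  obtain ⟨b, rfl⟩ : ∃ b : ℤ, ε = WithZero.exp b := ⟨WithZero.log ε, (WithZero.exp_log hε).symm⟩
  have key : ∀ (n : ℕ) (s : F), w.valuation F s < WithZero.exp (b + n) →
      ∃ s₀ : K, w.valuation F (s - algebraMap K F s₀) < WithZero.exp b := by
    intro n
    induction n with
    | zero =>
      intro s hs
      refine ⟨0, ?_⟩
      rw [map_zero, sub_zero]
      simpa using hs
    | succ n ih =>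
      intro s hs
      by_cases h0 : s = 0
      · refine ⟨0, ?_⟩
        rw [h0, map_zero, sub_zero, map_zero]
        exact WithZero.exp_pos
      · obtain ⟨s₁, hs₁⟩ := h s h0
        have h3 : w.valuation F (s - algebraMap K F s₁) < WithZero.exp (b + n) := by
          by_cases h4 : s - algebraMap K F s₁ = 0
          · rw [h4, map_zero]
            exact WithZero.exp_pos
          · have a1 : w.valuation F (s - algebraMap K F s₁) ≠ 0 := (Valuation.ne_zero_iff _).2 h4
            have a2 : w.valuation F s ≠ 0 := (Valuation.ne_zero_iff _).2 h0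
            rw [← WithZero.exp_log a1, ← WithZero.exp_log a2, WithZero.exp_lt_exp] at hs₁
            rw [← WithZero.exp_log a2, WithZero.exp_lt_exp] at hs
            rw [← WithZero.exp_log a1, WithZero.exp_lt_exp]
            push_cast at hs
            omega
        obtain ⟨s₂, hs₂⟩ := ih _ h3
        refine ⟨s₁ + s₂, ?_⟩
        rw [map_add, ← sub_sub]
        exact hs₂
  by_cases h0 : s = 0
  · refine ⟨0, ?_⟩
    rw [h0, map_zero, sub_zero, map_zero]
    exact WithZero.exp_pos
  · have a2 : w.valuation F s ≠ 0 := (Valuation.ne_zero_iff _).2 h0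
    refine key (WithZero.log (w.valuation F s) - b + 1).toNat s ?_
    conv_lhs => rw [← WithZero.exp_log a2]
    rw [WithZero.exp_lt_exp]
    have := Int.self_le_toNat (WithZero.log (w.valuation F s) - b + 1)
    omega

end dens

section dens3

variable {K L M Ω : Type} (O' R : Type) [Field K] [Field L] [Field M] [Field Ω]
  [Algebra K L] [Algebra K M]
  [Algebra L Ω] [Algebra M Ω] [Algebra K Ω] [IsScalarTower K L Ω] [IsScalarTower K M Ω]
  [CommRing O'] [IsDedekindDomain O'] [Algebra O' Ω] [IsFractionRing O' Ω]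
  [CommRing R] [IsDedekindDomain R] [Algebra R M] [IsFractionRing R M]

/-- Approximation by elements of `L`. -/
theorem dens3 {θ : L} [Algebra.IsAlgebraic M Ω] (hθ : M⟮algebraMap L Ω θ⟯ = ⊤)
    (𝔓 : HeightOneSpectrum O') (w : HeightOneSpectrum R)
    (hw : ∀ x : M, 𝔓.valuation Ω (algebraMap M Ω x) = w.valuation M x)
    (hint : 𝔓.valuation Ω (algebraMap L Ω θ) ≤ 1)
    (h : ∀ s : M, s ≠ 0 → ∃ s₀ : K, w.valuation M (s - algebraMap K M s₀) < w.valuation M s)
    (s : Ω) (hs : s ≠ 0) :
    ∃ s₀ : L, 𝔓.valuation Ω (s - algebraMap L Ω s₀) < 𝔓.valuation Ω s := by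
  have hε : 𝔓.valuation Ω s ≠ 0 := (Valuation.ne_zero_iff _).2 hs
  have h1 : s ∈ Algebra.adjoin M {algebraMap L Ω θ} := by
    have h2 := IntermediateField.adjoin_simple_toSubalgebra_of_isAlgebraic
      (Algebra.IsAlgebraic.isAlgebraic (R := M) (algebraMap L Ω θ))
    rw [← h2, hθ]
    trivial
  rw [Algebra.adjoin_singleton_eq_range_aeval] at h1
  obtain ⟨p, rfl⟩ := h1
  have hp : (aeval (algebraMap L Ω θ)) p ≠ 0 := hs
  change 𝔓.valuation Ω (aeval (algebraMap L Ω θ) p) ≠ 0 at hε
  choose a ha using fun i => dens2 R w h (p.coeff i) hε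
  refine ⟨∑ i ∈ Finset.range (p.natDegree + 1), algebraMap K L (a i) * θ ^ i, ?_⟩
  change 𝔓.valuation Ω (aeval (algebraMap L Ω θ) p - _) < 𝔓.valuation Ω (aeval (algebraMap L Ω θ) p)
  have e : aeval (algebraMap L Ω θ) p - algebraMap L Ω
      (∑ i ∈ Finset.range (p.natDegree + 1), algebraMap K L (a i) * θ ^ i) =
      ∑ i ∈ Finset.range (p.natDegree + 1), algebraMap M Ω (p.coeff i - algebraMap K M (a i)) *
        (algebraMap L Ω θ) ^ i := by
    conv_lhs => rw [aeval_eq_sum_range]
    rw [map_sum, ← Finset.sum_sub_distrib]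
    refine Finset.sum_congr rfl fun i _ => ?_
    rw [map_mul, map_pow, ← IsScalarTower.algebraMap_apply K L Ω, map_sub,
      ← IsScalarTower.algebraMap_apply K M Ω, sub_mul, Algebra.smul_def]
  rw [e]
  refine Valuation.map_sum_lt _ hε fun i _ => ?_
  rw [map_mul, hw, map_pow]
  refine lt_of_le_of_lt ?_ (ha i)
  exact mul_le_of_le_one_right' (pow_le_one' hint i)

end dens3

end Pool.Agent.N874.TW
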