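import Pool.Agent.N874.JM.Core
import Pool.Agent.N874.TW.Gen

/-!
# The conditions over the extension

Project TW (helper874), after project JM.
-/

set_option autoImplicit false
set_option linter.all false

open Polynomial IsDedekindDomain
open Pool.Agent.N352.PJ
open Pool.Agent.N874.JM (S_RAM)
open Pool.Agent.N874.PP (nm Ov Ev Sq1 U0 S_CLS S_LIN cl cl_add_aux exists_below below_unique)
open Pool.Agent.N874.PM (ov_val val_le val_eq_of ov_down ev_down sq_down ev_sq ev_mul S_SIG)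
open scoped Classical IntermediateField

namespace Pool.Agent.N874.TW

section cond

variable {k Ω : Type} [Field k] [Field Ω] [Algebra k[X] Ω] (O' : Type)
  [CommRing O'] [IsDedekindDomain O'] [Algebra O' Ω] [IsFractionRing O' Ω] [Algebra k[X] O']
  [IsScalarTower k[X] O' Ω]

/-- The conditions. -/
structure Cnd (J : Finset k[X]) (T : Set k[X]) (θ η x : Ω) : Prop where
  ev : ∀ 𝔓 : HeightOneSpectrum O', (∀ P ∈ T, ¬ Ov P 𝔓) → (∀ Q ∈ J, ¬ Ov Q 𝔓) →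
    𝔓.valuation Ω η = 1 → Ev 𝔓 x
  u0 : ∀ Q ∈ J, ∀ 𝔓 : HeightOneSpectrum O', Ov Q 𝔓 → 𝔓.valuation Ω θ = 1 →
    U0 𝔓 (algebraMap k[X] Ω Q * θ) x

variable {O'} {J : Finset k[X]} {T : Set k[X]} {θ η : Ω}

theorem cnd_sq {x : Ω} (hx : x ≠ 0) : Cnd O' J T θ η (x ^ 2) where
  ev 𝔓 _ _ _ := ev_sq 𝔓 x
  u0 Q _ 𝔓 _ _ := by
    refine ⟨fun _ => ⟨x, ?_⟩, fun h => absurd (ev_sq 𝔓 x) h⟩
    rw [sub_self, map_zero, zero_lt_iff]
    exact (Valuation.ne_zero_iff _).2 (pow_ne_zero _ hx)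

theorem cnd_mul [Finite k] [Algebra.IsIntegral k[X] O'] [Module.Finite k[X] O'] (hCLS : S_CLS)
    (h2 : (2 : k) ≠ 0) (hJ : ∀ Q ∈ J, Irreducible Q)
    (hϖ : ∀ Q ∈ J, ∀ 𝔓 : HeightOneSpectrum O', Ov Q 𝔓 → 𝔓.valuation Ω θ = 1 →
      ¬ Ev 𝔓 (algebraMap k[X] Ω Q * θ)) {x y : Ω} (hx : x ≠ 0) (hy : y ≠ 0)
    (h : Cnd O' J T θ η x) (h' : Cnd O' J T θ η y) : Cnd O' J T θ η (x * y) where
  ev 𝔓 h1 h2 h3 := ev_mul (h.ev 𝔓 h1 h2 h3) (h'.ev 𝔓 h1 h2 h3)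
  u0 Q hQ 𝔓 h1 h3 := by
    have h4 := hϖ Q hQ 𝔓 h1 h3
    have h5 : algebraMap k[X] Ω Q * θ ≠ 0 := by
      intro h0
      apply h4
      rw [h0]
      exact ⟨0, by simp⟩
    exact ((hCLS k Ω O' Q 𝔓 _ h2 (hJ Q hQ) h1 h5 h4 x y hx hy).2).2
      ⟨fun _ => h'.u0 Q hQ 𝔓 h1 h3, fun _ => h.u0 Q hQ 𝔓 h1 h3⟩

theorem cnd_sig [IsIntegralClosure O' k[X] Ω] (hSIG : S_SIG) {L : Type} [Field L] [Algebra L Ω]
    [Algebra k[X] L] [IsScalarTower k[X] L Ω] {θ₀ η₀ : L} (hθ : θ = algebraMap L Ω θ₀)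
    (hη : η = algebraMap L Ω η₀)
    (σ : Ω ≃ₐ[L] Ω) {x : Ω} (h : Cnd O' J T θ η x) : Cnd O' J T θ η (σ x) := by
  have hf : ∀ y : L, σ (algebraMap L Ω y) = algebraMap L Ω y := fun y => σ.commutes y
  have hp : ∀ P : k[X], σ (algebraMap k[X] Ω P) = algebraMap k[X] Ω P := fun P => by
    rw [IsScalarTower.algebraMap_apply k[X] L Ω, hf]
  have key := hSIG k Ω O' (σ.restrictScalars k[X])
  have hev : ∀ (𝔓 𝔓' : HeightOneSpectrum O'), (∀ y : Ω, 𝔓'.valuation Ω y = 𝔓.valuation Ω (σ y)) →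
      ∀ y : Ω, Ev 𝔓' y ↔ Ev 𝔓 (σ y) := by
    intro 𝔓 𝔓' hv y
    constructor
    · rintro ⟨z, hz⟩
      exact ⟨σ z, by rw [← hv, ← hv, hz]⟩
    · rintro ⟨z, hz⟩
      refine ⟨σ.symm z, ?_⟩
      rw [hv, hv, σ.apply_symm_apply, hz]
  have hsq : ∀ (𝔓 𝔓' : HeightOneSpectrum O'), (∀ y : Ω, 𝔓'.valuation Ω y = 𝔓.valuation Ω (σ y)) →
      ∀ y : Ω, Sq1 𝔓' y → Sq1 𝔓 (σ y) := by
    rintro 𝔓 𝔓' hv y ⟨z, hz⟩
    refine ⟨σ z, ?_⟩
    rw [hv, hv, map_sub, map_pow] at hz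
    exact hz
  refine ⟨fun 𝔓 h1 h2 h3 => ?_, fun Q hQ 𝔓 h1 h2 => ?_⟩
  · obtain ⟨𝔓', hv, hO⟩ := key 𝔓
    have hv' : ∀ y : Ω, 𝔓'.valuation Ω y = 𝔓.valuation Ω (σ y) := hv
    exact (hev 𝔓 𝔓' hv' x).1 (h.ev 𝔓' (fun P hP hc => h1 P hP ((hO P).1 hc))
      (fun Q hQ hc => h2 Q hQ ((hO Q).1 hc)) (by rw [hv', hη, hf, ← hη]; exact h3))
  · obtain ⟨𝔓', hv, hO⟩ := key 𝔓
    have hv' : ∀ y : Ω, 𝔓'.valuation Ω y = 𝔓.valuation Ω (σ y) := hv
    have h3 := h.u0 Q hQ 𝔓' ((hO Q).2 h1) (by rw [hv', hθ, hf, ← hθ]; exact h2)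
    refine ⟨fun h4 => hsq 𝔓 𝔓' hv' x (h3.1 ((hev 𝔓 𝔓' hv' x).2 h4)), fun h4 => ?_⟩
    have h5 := hsq 𝔓 𝔓' hv' _ (h3.2 fun h6 => h4 ((hev 𝔓 𝔓' hv' x).1 h6))
    rw [map_mul, map_mul, hp, hθ, hf, ← hθ] at h5
    exact h5

end cond

section base

variable {k K L Ω : Type} (O O' : Type) [Field k] [Field K] [Field L] [Field Ω] [Algebra K L]
  [Algebra L Ω] [Algebra k[X] L]
  [Algebra k[X] Ω] [IsScalarTower k[X] L Ω]
  [CommRing O] [IsDedekindDomain O] [Algebra O L] [IsFractionRing O L] [Algebra k[X] O]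
  [IsScalarTower k[X] O L] [Algebra.IsIntegral k[X] O]
  [CommRing O'] [IsDedekindDomain O'] [Algebra O' Ω] [IsFractionRing O' Ω] [Algebra k[X] O']
  [IsScalarTower k[X] O' Ω]

theorem base_sq {θ η : L} {J : Finset k[X]} {T : Set k[X]}
    (hJm : ∀ Q ∈ J, Q.Monic ∧ Irreducible Q) (hTm : ∀ P ∈ T, P.Monic ∧ Irreducible P)
    (hsel : ∀ α : L, α ≠ 0 → IsSquare (Algebra.norm K α) →
      (∀ 𝔓 : HeightOneSpectrum O, (∀ Q ∈ J, ¬ Ov Q 𝔓) → Ev 𝔓 α) →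
      (∀ Q ∈ J, ∀ 𝔓 : HeightOneSpectrum O, Ov Q 𝔓 → 𝔓.valuation L θ = 1 →
        U0 𝔓 (algebraMap k[X] L Q * θ) α) → IsSquare α)
    (hη : ∀ 𝔓 : HeightOneSpectrum O, 𝔓.valuation L η ≤ 1)
    (hUR : ∀ 𝔓 : HeightOneSpectrum O, (∀ P ∈ T, ¬ Ov P 𝔓) → 𝔓.valuation L η = 1 →
      ∃ 𝔓' : HeightOneSpectrum O',
      ∀ x : L, 𝔓'.valuation Ω (algebraMap L Ω x) = 𝔓.valuation L x)
    (hSP : ∀ Q ∈ J, ∀ 𝔓 : HeightOneSpectrum O, Ov Q 𝔓 → 𝔓.valuation L θ = 1 →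
      ∃ 𝔓' : HeightOneSpectrum O',
      (∀ x : L, 𝔓'.valuation Ω (algebraMap L Ω x) = 𝔓.valuation L x) ∧
      ∀ s : Ω, s ≠ 0 → ∃ s₀ : L, 𝔓'.valuation Ω (s - algebraMap L Ω s₀) < 𝔓'.valuation Ω s)
    (hT : ∀ P ∈ T, ∀ x : L, x ≠ 0 → IsSquare (Algebra.norm K x) →
      ∀ 𝔓 : HeightOneSpectrum O, Ov P 𝔓 → Ev 𝔓 x)
    (hRAM : ∀ P : k[X], Irreducible P → ∀ 𝔓₀ : HeightOneSpectrum O, Ov P 𝔓₀ →
      𝔓₀.valuation L η < 1 → (∃ c : k[X], 𝔓₀.valuation L (θ - algebraMap k[X] L c) < 1) ∧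
      ∀ 𝔓 : HeightOneSpectrum O, Ov P 𝔓 → 𝔓 ≠ 𝔓₀ → 𝔓.valuation L η = 1)
    (hPAR : ∀ P : k[X], Irreducible P → ∀ (𝔓₀ : HeightOneSpectrum O) (c : k[X]), Ov P 𝔓₀ →
      𝔓₀.valuation L (θ - algebraMap k[X] L c) < 1 → ∀ x : L, x ≠ 0 →
      IsSquare (Algebra.norm K x) →
      (∀ 𝔓 : HeightOneSpectrum O, Ov P 𝔓 → 𝔓 ≠ 𝔓₀ → Ev 𝔓 x) → Ev 𝔓₀ x)
    {x : L} (hx : x ≠ 0)
    (hC : Cnd O' J T (algebraMap L Ω θ) (algebraMap L Ω η) (algebraMap L Ω x))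
    (hN : IsSquare (Algebra.norm K x)) : IsSquare x := by
  have key : ∀ 𝔓 : HeightOneSpectrum O, (∀ P ∈ T, ¬ Ov P 𝔓) → (∀ Q ∈ J, ¬ Ov Q 𝔓) →
      𝔓.valuation L η = 1 → Ev 𝔓 x := by
    intro 𝔓 h1 h2 h3
    obtain ⟨𝔓', hv⟩ := hUR 𝔓 h1 h3
    rw [← ev_down hv]
    exact hC.ev 𝔓' (fun P hPT h => h1 P hPT ((ov_down hv P).1 h))
      (fun Q hQ h => h2 Q hQ ((ov_down hv Q).1 h)) (by rw [hv]; exact h3)
  refine hsel x hx hN (fun 𝔓 h𝔓 => ?_) (fun Q hQ 𝔓 h1 h2 => ?_)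
  · by_cases hP : ∃ P ∈ T, Ov P 𝔓
    · obtain ⟨P, hPT, hP𝔓⟩ := hP
      exact hT P hPT x hx hN 𝔓 hP𝔓
    · push_neg at hP
      by_cases h1 : 𝔓.valuation L η = 1
      · exact key 𝔓 hP h𝔓 h1
      · obtain ⟨P, hPm, hPi, hP𝔓⟩ := exists_below (k := k) 𝔓
        obtain ⟨⟨c, hc⟩, huniq⟩ := hRAM P hPi 𝔓 hP𝔓 (lt_of_le_of_ne (hη 𝔓) h1)
        refine hPAR P hPi 𝔓 c hP𝔓 hc x hx hN fun 𝔮 hq hne => ?_
        refine key 𝔮 (fun P' hP' h => ?_) (fun Q' hQ' h => ?_) (huniq 𝔮 hq hne)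
        · have := below_unique (hTm P' hP').1 (hTm P' hP').2 hPm hPi h hq
          exact hP P' hP' (this ▸ hP𝔓)
        · have := below_unique (hJm Q' hQ').1 (hJm Q' hQ').2 hPm hPi h hq
          exact h𝔓 Q' hQ' (this ▸ hP𝔓)
  · obtain ⟨𝔓', hv, hd⟩ := hSP Q hQ 𝔓 h1 h2
    have hQ' : Ov Q 𝔓' := (ov_down hv Q).2 h1
    have h3 := hC.u0 Q hQ 𝔓' hQ' (by rw [hv]; exact h2)
    refine ⟨fun h4 => sq_down hv hd (h3.1 ((ev_down hv x).2 h4)), fun h4 => ?_⟩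
    have h5 := h3.2 fun h6 => h4 ((ev_down hv x).1 h6)
    have e : algebraMap L Ω x * (algebraMap k[X] Ω Q * algebraMap L Ω θ) =
        algebraMap L Ω (x * (algebraMap k[X] L Q * θ)) := by
      rw [map_mul, map_mul, ← IsScalarTower.algebraMap_apply k[X] L Ω]
    rw [e] at h5
    exact sq_down hv hd h5

end base

/-! ### The primes which do not divide `f'(θ)` -/

section primes

variable {k K L : Type} (O : Type) [Field k] [Finite k] [Field K] [Field L]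
  [Algebra k[X] K] [IsFractionRing k[X] K]
  [Algebra K L] [Algebra k[X] L] [IsScalarTower k[X] K L]
  [CommRing O] [IsDedekindDomain O] [Algebra O L] [IsFractionRing O L] [Algebra k[X] O]
  [IsScalarTower k[X] O L] [IsIntegralClosure O k[X] L]

/-- At the large prime over `Q ∈ S` the element `f'(θ)` is a unit. -/
theorem eta_unit (hRAM : S_RAM) {g : ℕ} {f : k[X][X]} {θ : L}
    {S : Finset k[X]} {s : k[X] → k[X][X]} (hg : 1 ≤ g) (hc : IsGen g K f θ)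
    (hsq : Squarefree (dsc g f)) (hS : GoodS g S s) {Q : k[X]} (hQ : Q ∈ S)
    (hcon : Cg Q f (X * s Q)) (𝔓 : HeightOneSpectrum O) (h1 : Ov Q 𝔓)
    (h2 : 𝔓.valuation L θ = 1) :
    𝔓.valuation L (eval₂ (algebraMap k[X] L) θ (derivative f)) = 1 := by
  have hle : 𝔓.valuation L (eval₂ (algebraMap k[X] L) θ (derivative f)) ≤ 1 := by
    refine Pool.Agent.N704.PP.val_int (k := k) 𝔓 ?_
    rw [eval₂_eq_sum_range]
    exact IsIntegral.sum _ fun i _ => isIntegral_algebraMap.mul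
      ((Pool.Agent.N769.PJ.theta_int hc).pow _)
  by_contra hne
  obtain ⟨⟨c, hcθ⟩, -⟩ := hRAM g k K L O f θ hc hsq Q (hS Q hQ).2.1 𝔓 h1 (lt_of_le_of_ne hle hne)
  obtain ⟨y, hy⟩ := (IsIntegralClosure.isIntegral_iff (R := k[X]) (A := O)).1
    (Pool.Agent.N769.PJ.theta_int hc)
  haveI := 𝔓.isPrime
  set φ : O →+* O ⧸ 𝔓.asIdeal := Ideal.Quotient.mk 𝔓.asIdeal with hφ
  set ψ : k[X] →+* O ⧸ 𝔓.asIdeal := φ.comp (algebraMap k[X] O) with hψ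
  have hψQ : ψ Q = 0 := by
    rw [hψ, RingHom.comp_apply, hφ, Ideal.Quotient.eq_zero_iff_mem]
    exact h1
  have hyc : φ y = ψ c := by
    rw [hψ, RingHom.comp_apply, hφ, Ideal.Quotient.eq,
      ← HeightOneSpectrum.valuation_lt_one_iff_mem (K := L)]
    change 𝔓.valuation L (algebraMap O L (y - algebraMap k[X] O c)) < 1
    rw [map_sub, ← IsScalarTower.algebraMap_apply k[X] O L, hy]
    exact hcθ
  have hy0 : φ y ≠ 0 := by
    intro h0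
    rw [hφ, Ideal.Quotient.eq_zero_iff_mem,
      ← HeightOneSpectrum.valuation_lt_one_iff_mem (K := L)] at h0
    change 𝔓.valuation L (algebraMap O L y) < 1 at h0
    rw [hy, h2] at h0
    exact lt_irrefl _ h0
  have hfy : eval₂ (algebraMap k[X] O) y f = 0 := by
    apply IsFractionRing.injective O L
    rw [map_zero, hom_eval₂, hy, ← IsScalarTower.algebraMap_eq k[X] O L]
    exact hc.root
  have hfy' : eval₂ ψ (φ y) f = 0 := by
    rw [hψ, ← hom_eval₂, hfy, map_zero]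
  have hmap : f.map ψ = (X * s Q).map ψ := by
    ext j
    rw [coeff_map, coeff_map, ← sub_eq_zero, ← map_sub]
    obtain ⟨d, hd⟩ := hcon j
    rw [hd, map_mul, hψQ, zero_mul]
  have h3 : eval₂ ψ (φ y) (X * s Q) = 0 := by
    rw [← eval_map, ← hmap, eval_map, hfy']
  rw [eval₂_mul, eval₂_X] at h3
  have h4 : eval₂ ψ (φ y) (s Q) = 0 := (mul_eq_zero.1 h3).resolve_left hy0
  rw [hyc, eval₂_at_apply] at h4
  have h5 : Q ∣ (s Q).eval c := by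
    by_contra hnd
    obtain ⟨a, b, hab⟩ := ((hS Q hQ).2.1.coprime_iff_not_dvd).2 hnd
    have h6 := congrArg ψ hab
    rw [map_add, map_mul, map_mul, hψQ, h4, mul_zero, mul_zero, add_zero, map_one] at h6
    exact zero_ne_one h6
  haveI : (Ideal.span {Q}).IsMaximal := PrincipalIdealRing.isMaximal_of_irreducible (hS Q hQ).2.1
  letI : Field (k[X] ⧸ Ideal.span {Q}) := Ideal.Quotient.field _
  have hirr := (hS Q hQ).2.2.2.2.2
  have hroot : ((s Q).map (Ideal.Quotient.mk (Ideal.span {Q}))).IsRoot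
      (Ideal.Quotient.mk (Ideal.span {Q}) c) := by
    rw [IsRoot, eval_map, eval₂_at_apply, Ideal.Quotient.eq_zero_iff_mem,
      Ideal.mem_span_singleton]
    exact h5
  have hdeg := degree_eq_one_of_irreducible_of_root hirr hroot
  have hmon : (s Q).Monic := (hS Q hQ).2.2.1
  rw [hmon.degree_map, degree_eq_natDegree hmon.ne_zero, (hS Q hQ).2.2.2.1] at hdeg
  have : 2 * g = 1 := by exact_mod_cast hdeg
  omega

end primes

section up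

variable {k K L M Ω : Type} (O O' R : Type) [Field k] [Finite k] [Field K] [Field L] [Field M]
  [Field Ω]
  [Algebra k[X] K] [IsFractionRing k[X] K]
  [Algebra K L] [Algebra k[X] L] [IsScalarTower k[X] K L]
  [Algebra K M] [Algebra k[X] M] [IsScalarTower k[X] K M]
  [Algebra L Ω] [Algebra M Ω] [Algebra K Ω] [IsScalarTower K L Ω] [IsScalarTower K M Ω]
  [Algebra k[X] Ω] [IsScalarTower k[X] L Ω] [IsScalarTower k[X] M Ω]
  [CommRing O] [IsDedekindDomain O] [Algebra O L] [IsFractionRing O L] [Algebra k[X] O]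
  [IsScalarTower k[X] O L] [IsIntegralClosure O k[X] L]
  [CommRing O'] [IsDedekindDomain O'] [Algebra O' Ω] [IsFractionRing O' Ω] [Algebra k[X] O']
  [IsScalarTower k[X] O' Ω] [IsIntegralClosure O' k[X] Ω]
  [CommRing R] [IsDedekindDomain R] [Algebra R M] [IsFractionRing R M] [Algebra k[X] R]
  [IsScalarTower k[X] R M] [IsIntegralClosure R k[X] M]
  [FiniteDimensional M Ω] [Algebra.IsSeparable M Ω] [FiniteDimensional L Ω]
  [Algebra.IsSeparable L Ω]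

include R in
/-- The primes over `P` at which `f'(θ)` is a unit are unramified in the compositum. -/
theorem up_prime {g : ℕ} {f : k[X][X]} {θ : L} (hc : IsGen g K f θ)
    (hθ : M⟮algebraMap L Ω θ⟯ = ⊤) {P : k[X]} (hP : P.Monic) (hPi : Irreducible P)
    (hun : ∀ w : HeightOneSpectrum R, Ov P w →
      w.valuation M (algebraMap k[X] M P) = WithZero.exp (-1 : ℤ))
    (𝔓 : HeightOneSpectrum O) (h1 : Ov P 𝔓)
    (h2 : 𝔓.valuation L (eval₂ (algebraMap k[X] L) θ (derivative f)) = 1) :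
    ∃ 𝔓' : HeightOneSpectrum O', (∀ x : L, 𝔓'.valuation Ω (algebraMap L Ω x) = 𝔓.valuation L x) ∧
      ∃ w : HeightOneSpectrum R, (∀ x : M, 𝔓'.valuation Ω (algebraMap M Ω x) = w.valuation M x) ∧
        Ov P w := by
  obtain ⟨𝔓', e, he⟩ := exists_over k O O' (F := L) (F' := Ω) 𝔓
  have hroot : aeval (algebraMap L Ω θ) f = 0 := by
    have h1 := congrArg (algebraMap L Ω) hc.root
    rw [map_zero, hom_eval₂, ← IsScalarTower.algebraMap_eq k[X] L Ω] at h1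
    rw [aeval_def]
    exact h1
  have hder : aeval (algebraMap L Ω θ) (derivative f) =
      algebraMap L Ω (eval₂ (algebraMap k[X] L) θ (derivative f)) := by
    rw [aeval_def, hom_eval₂, ← IsScalarTower.algebraMap_eq k[X] L Ω]
  obtain ⟨w, hw⟩ := unr_top R O' (F := M) (F' := Ω) hc.mon hroot hθ 𝔓' (by
    rw [hder, he, h2, one_pow])
  have hP𝔓 : 𝔓.valuation L (algebraMap k[X] L P) < 1 := (ov_val P 𝔓).1 h1
  have e0 : e ≠ 0 := by
    rintro rfl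
    have hw1 : w.valuation M (algebraMap k[X] M P) = 1 := by
      rw [← hw, ← IsScalarTower.algebraMap_apply k[X] M Ω, IsScalarTower.algebraMap_apply k[X] L Ω,
        he, pow_zero]
    obtain ⟨x, hx⟩ := 𝔓'.valuation_surjective Ω (WithZero.exp (-1 : ℤ))
    -- a prime below
    haveI : Algebra.IsIntegral k[X] O' := IsIntegralClosure.isIntegral_algebra k[X] Ω
    obtain ⟨P₁, a1, a2, a3⟩ := exists_below (k := k) 𝔓'
    have h3 := (ov_val (L := Ω) P₁ 𝔓').1 a3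
    rw [IsScalarTower.algebraMap_apply k[X] L Ω, he, pow_zero] at h3
    exact lt_irrefl _ h3
  have hwP : Ov P w := by
    rw [ov_val (L := M), ← hw, ← IsScalarTower.algebraMap_apply k[X] M Ω,
      IsScalarTower.algebraMap_apply k[X] L Ω, he]
    exact pow_lt_one' hP𝔓 e0
  have h4 := hun w hwP
  rw [← hw, ← IsScalarTower.algebraMap_apply k[X] M Ω, IsScalarTower.algebraMap_apply k[X] L Ω,
    he] at h4
  have h5 := exp_pow h4
  subst h5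
  exact ⟨𝔓', fun x => by rw [he, pow_one], w, hw, hwP⟩

end up

end Pool.Agent.N874.TW
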