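import Pool.Agent.N874.TW.Cnd
import Pool.Agent.N874.JM.Top

/-!
# The conditions for elements which are locally in the image, over the extension

Project TW (helper874), after project JM.
-/

set_option autoImplicit false
set_option linter.all false

open Polynomial IsDedekindDomain
open Pool.Agent.N352.PJ
open Pool.Agent.N874.JM (S_RAM LocF SelF)
open Pool.Agent.N874.PP (nm Ov Ev Sq1 U0 S_CLS S_LIN cl cl_add_aux exists_below below_unique)
open Pool.Agent.N874.PM (ov_val val_le val_eq_of ov_down ev_down sq_down ev_sq ev_mul S_SIG Gen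
  SplitMod S_UR S_SPD S_LIE poly_approx val_two ov_prod Lies)
open scoped Classical IntermediateField

namespace Pool.Agent.N874.TW

section top

variable {k K L M Ω : Type} (O O' R : Type) [Field k] [Finite k] [Field K] [Field L] [Field M]
  [Field Ω]
  [Algebra k[X] K] [IsFractionRing k[X] K]
  [Algebra K L] [Algebra k[X] L] [IsScalarTower k[X] K L]
  [Algebra K M] [Algebra k[X] M] [IsScalarTower k[X] K M]
  [Algebra L Ω] [Algebra M Ω] [Algebra K Ω] [IsScalarTower K L Ω] [IsScalarTower K M Ω]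
  [Algebra k[X] Ω] [IsScalarTower k[X] L Ω] [IsScalarTower k[X] M Ω]
  [CommRing O] [IsDedekindDomain O] [Algebra O L] [IsFractionRing O L] [Algebra k[X] O]
  [IsScalarTower k[X] O L] [IsIntegralClosure O k[X] L]
  [CommRing O'] [IsDedekindDomain O'] [Algebra O' Ω] [IsFractionRing O' Ω] [Algebra k[X] O']
  [IsScalarTower k[X] O' Ω] [IsIntegralClosure O' k[X] Ω] [Module.Finite k[X] O']
  [CommRing R] [IsDedekindDomain R] [Algebra R M] [IsFractionRing R M] [Algebra k[X] R]
  [IsScalarTower k[X] R M] [IsIntegralClosure R k[X] M] [Module.Finite k[X] R]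
  [FiniteDimensional M Ω] [Algebra.IsSeparable M Ω] [FiniteDimensional L Ω]
  [Algebra.IsSeparable L Ω]

/-- Irreducibility modulo `w`. -/
theorem irr_top {R : Type} [CommRing R] [IsDedekindDomain R] [Algebra k[X] R] {Q : k[X]}
    (hQ : Irreducible Q) (w : HeightOneSpectrum R)
    (hs : Function.Surjective ((Ideal.Quotient.mk w.asIdeal).comp (algebraMap k[X] R)))
    (h1 : Ov Q w) {h : k[X][X]}
    (hirr : Irreducible (h.map (Ideal.Quotient.mk (Ideal.span {Q})))) :
    Irreducible ((h.map (algebraMap k[X] R)).map (Ideal.Quotient.mk w.asIdeal)) := by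
  have hker : Ideal.span {Q} = RingHom.ker ((Ideal.Quotient.mk w.asIdeal).comp
      (algebraMap k[X] R)) := by
    haveI : (Ideal.span {Q}).IsMaximal := PrincipalIdealRing.isMaximal_of_irreducible hQ
    refine Ideal.IsMaximal.eq_of_le this ?_ ?_
    · haveI := Ideal.Quotient.nontrivial_iff.2 w.isPrime.ne_top
      exact RingHom.ker_ne_top _
    · rw [Ideal.span_le, Set.singleton_subset_iff, SetLike.mem_coe, RingHom.mem_ker,
        RingHom.comp_apply, Ideal.Quotient.eq_zero_iff_mem]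
      exact h1
  let φ : (k[X] ⧸ Ideal.span {Q}) ≃+* (R ⧸ w.asIdeal) :=
    (Ideal.quotEquivOfEq hker).trans (RingHom.quotientKerEquivOfSurjective hs)
  have hφ : ∀ c : k[X], φ (Ideal.Quotient.mk _ c) = Ideal.Quotient.mk w.asIdeal
      (algebraMap k[X] R c) := fun c => rfl
  have e : (h.map (algebraMap k[X] R)).map (Ideal.Quotient.mk w.asIdeal) =
      Polynomial.mapEquiv φ (h.map (Ideal.Quotient.mk (Ideal.span {Q}))) := by
    rw [Polynomial.mapEquiv_apply, Polynomial.map_map, Polynomial.map_map]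
    congr 1
  rw [e]
  exact (MulEquiv.irreducible_iff (Polynomial.mapEquiv φ)).2 hirr

include O R in
/-- The prime below a prime over `Q` at which `θ` is a unit. -/
theorem q_top (hRAM : S_RAM) (hCSQ : S_CSQ) (hLIE : S_LIE) {g : ℕ} {f : k[X][X]} {θ : L}
    {S : Finset k[X]} {s : k[X] → k[X][X]} (hg : 1 ≤ g) (hc : IsGen g K f θ)
    (hsq : Squarefree (dsc g f)) (hS : GoodS g S s) (hθ : M⟮algebraMap L Ω θ⟯ = ⊤)
    {Q : k[X]} (hQ : Q ∈ S) (hcon : Cg Q f (X * s Q))
    (hun : ∀ w : HeightOneSpectrum R, Ov Q w →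
      w.valuation M (algebraMap k[X] M Q) = WithZero.exp (-1 : ℤ))
    (𝔓 : HeightOneSpectrum O') (h1 : Ov Q 𝔓)
    (h2 : 𝔓.valuation Ω (algebraMap L Ω θ) = 1) :
    𝔓.valuation Ω (algebraMap k[X] Ω Q) = WithZero.exp (-1 : ℤ) ∧
    (∀ c : k[X], ¬ Q ∣ c → Sq1 𝔓 (algebraMap k[X] Ω c)) := by
  obtain ⟨𝔭, hl, hO⟩ := hLIE k L Ω O O' 𝔓
  have h1' : Ov Q 𝔭 := (hO Q).2 h1
  have hθle : 𝔭.valuation L θ ≤ 1 :=
    Pool.Agent.N704.PP.val_int (k := k) 𝔭 (Pool.Agent.N769.PJ.theta_int hc)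
  have h2' : 𝔭.valuation L θ = 1 := by
    by_contra hne
    have := hl.lt θ (lt_of_le_of_ne hθle hne)
    rw [h2] at this
    exact lt_irrefl _ this
  have hη := eta_unit O hRAM hg hc hsq hS hQ hcon 𝔭 h1' h2'
  have hη' : 𝔓.valuation Ω (algebraMap L Ω (eval₂ (algebraMap k[X] L) θ (derivative f))) = 1 := by
    refine le_antisymm (hl.le _ hη.le) ?_
    have h3 := hl.le (eval₂ (algebraMap k[X] L) θ (derivative f))⁻¹ (by
      rw [map_inv₀, hη, inv_one])
    rw [map_inv₀, map_inv₀] at h3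
    exact (inv_le_one₀ (by
      rw [zero_lt_iff, Valuation.ne_zero_iff, Ne, map_eq_zero]
      intro h0
      rw [h0, map_zero] at hη
      exact zero_ne_one hη)).1 h3
  have hroot : aeval (algebraMap L Ω θ) f = 0 := by
    have h1 := congrArg (algebraMap L Ω) hc.root
    rw [map_zero, hom_eval₂, ← IsScalarTower.algebraMap_eq k[X] L Ω] at h1
    rw [aeval_def]
    exact h1
  have hder : aeval (algebraMap L Ω θ) (derivative f) =
      algebraMap L Ω (eval₂ (algebraMap k[X] L) θ (derivative f)) := by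
    rw [aeval_def, hom_eval₂, ← IsScalarTower.algebraMap_eq k[X] L Ω]
  obtain ⟨w, hw⟩ := unr_top R O' (F := M) (F' := Ω) hc.mon hroot hθ 𝔓 (by rw [hder]; exact hη')
  have hwQ : Ov Q w := (ov_down hw Q).1 h1
  refine ⟨?_, fun c hcQ => ?_⟩
  · rw [IsScalarTower.algebraMap_apply k[X] M Ω, hw]
    exact hun w hwQ
  · obtain ⟨z, hz⟩ := (hCSQ g k K L O f θ S s hg hc hsq hS Q hQ hcon 𝔭 h1' h2').1 c hcQ
    have hcO : ¬ Ov c 𝔓 := by
      intro h
      obtain ⟨a, b, hab⟩ := ((hS Q hQ).2.1.coprime_iff_not_dvd).2 hcQ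
      apply 𝔓.isPrime.ne_top
      rw [Ideal.eq_top_iff_one, ← map_one (algebraMap k[X] O'), ← hab, map_add, map_mul, map_mul]
      exact Ideal.add_mem _ (Ideal.mul_mem_left _ _ h1) (Ideal.mul_mem_left _ _ h)
    have h5 : 𝔓.valuation Ω (algebraMap k[X] Ω c) = 1 := val_eq_of c 𝔓 hcO
    refine ⟨algebraMap L Ω z, ?_⟩
    rw [h5, IsScalarTower.algebraMap_apply k[X] L Ω, ← map_pow, ← map_sub]
    exact hl.lt _ (lt_of_lt_of_le hz (val_le c 𝔭))

include O in
theorem cnd_top (hRAM : S_RAM) (hCSQ : S_CSQ) (hLIE : S_LIE)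
    (hLOC1 : Pool.Agent.N874.JM.S_LOC1) (hLOC2 : Pool.Agent.N874.JM.S_LOC2) {g : ℕ}
    {f : k[X][X]} {θ : L} {N : ℕ} {r : k[X]} {S J : Finset k[X]} {T : Set k[X]}
    {s : k[X] → k[X][X]}
    (h2 : (2 : k) ≠ 0) (hg : 1 ≤ g) (hc : IsGen g K f θ) (hS : GoodS g S s)
    (hF : Fam g N r S s f) (hθ : M⟮algebraMap L Ω θ⟯ = ⊤)
    (hQs : ∀ Q ∈ S, ∀ w : HeightOneSpectrum R, Ov Q w →
      w.valuation M (algebraMap k[X] M Q) = WithZero.exp (-1 : ℤ) ∧
      Function.Surjective ((Ideal.Quotient.mk w.asIdeal).comp (algebraMap k[X] R)))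
    (hJ : J ⊆ S) {h : M[X]}
    (hloc : ∀ w : HeightOneSpectrum R, LocF (w.adicCompletion M)
      ((f.scaleRoots (∏ Q ∈ J, Q)).map (algebraMap k[X] M)) h)
    (h0 : aeval (algebraMap k[X] Ω (∏ Q ∈ J, Q) * algebraMap L Ω θ) h ≠ 0) :
    Cnd O' J T (algebraMap L Ω θ)
      (algebraMap L Ω (eval₂ (algebraMap k[X] L) θ (derivative f)))
      (aeval (algebraMap k[X] Ω (∏ Q ∈ J, Q) * algebraMap L Ω θ) h) := by
  haveI : Algebra.IsIntegral k[X] R := IsIntegralClosure.isIntegral_algebra k[X] M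
  haveI : Algebra.IsIntegral k[X] O' := IsIntegralClosure.isIntegral_algebra k[X] Ω
  have hS' : ∀ Q ∈ S, Q.Monic ∧ Irreducible Q := fun Q hQ => ⟨(hS Q hQ).1, (hS Q hQ).2.1⟩
  have hmon : (f.map (algebraMap k[X] M)).Monic := hc.mon.map _
  have hdeg : (f.map (algebraMap k[X] M)).natDegree = 2 * g + 1 := by
    rw [hc.mon.natDegree_map, hc.deg]
  have hsc : ∀ D : k[X], (f.scaleRoots D).map (algebraMap k[X] M) =
      (f.map (algebraMap k[X] M)).scaleRoots (algebraMap k[X] M D) := by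
    intro D
    apply map_scaleRoots
    rw [hc.mon.leadingCoeff, map_one]
    exact one_ne_zero
  have hroot : aeval (algebraMap L Ω θ) (f.map (algebraMap k[X] M)) = 0 := by
    have h1 := congrArg (algebraMap L Ω) hc.root
    rw [map_zero, hom_eval₂, ← IsScalarTower.algebraMap_eq k[X] L Ω] at h1
    rw [aeval_map_algebraMap, aeval_def]
    exact h1
  have hder : aeval (algebraMap L Ω θ) (derivative (f.map (algebraMap k[X] M))) =
      algebraMap L Ω (eval₂ (algebraMap k[X] L) θ (derivative f)) := by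
    rw [derivative_map, aeval_map_algebraMap, aeval_def, hom_eval₂,
      ← IsScalarTower.algebraMap_eq k[X] L Ω]
  have v2 : ∀ w : HeightOneSpectrum R, w.valuation M 2 = 1 := by
    intro w
    have e : (2 : M) = algebraMap k[X] M (C 2) := by
      rw [show (C (2 : k) : k[X]) = 2 from rfl, map_ofNat]
    rw [e]
    refine val_eq_of _ w (Pool.Agent.N874.PM.not_ov_unit ?_ w)
    rw [isUnit_C]
    exact h2.isUnit
  refine ⟨fun 𝔓 h1 h2 h3 => ?_, fun Q hQ 𝔓 h𝔓 h3 => ?_⟩
  · obtain ⟨w, hw, hO⟩ := hLIE k M Ω R O' 𝔓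
    have hD : w.valuation M (algebraMap k[X] M (∏ Q ∈ J, Q)) = 1 := by
      refine val_eq_of _ w fun h => ?_
      obtain ⟨Q, hQ, h'⟩ := ov_prod h
      exact h2 Q hQ ((hO Q).1 h')
    have hl := hloc w
    rw [hsc] at hl
    have e3 : algebraMap M Ω (algebraMap k[X] M (∏ P ∈ J, P)) = algebraMap k[X] Ω (∏ P ∈ J, P) :=
      (IsScalarTower.algebraMap_apply k[X] M Ω _).symm
    have h4 := hLOC1 M Ω R O' w 𝔓 hw (v2 w) (f.map (algebraMap k[X] M)) h
      (algebraMap k[X] M (∏ P ∈ J, P)) (algebraMap L Ω θ) hmon (by rw [hdeg]; exact odd_two_mul_add_one g)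
      (fun i => by rw [coeff_map]; exact val_le _ w) hroot (by rw [hder]; exact h3) hD hl
      (by rw [e3]; exact h0)
    rw [e3] at h4
    exact h4
  · have hQS := hJ hQ
    obtain ⟨w, hw, hO⟩ := hLIE k M Ω R O' 𝔓
    have hQw : Ov Q w := (hO Q).2 h𝔓
    haveI : Finite (R ⧸ w.asIdeal) := Pool.Agent.N539.PP.finite_residue (hS Q hQS).2.1 hQw
    haveI : Finite (O' ⧸ 𝔓.asIdeal) := Pool.Agent.N539.PP.finite_residue (hS Q hQS).2.1 h𝔓
    obtain ⟨h5, h6⟩ := q_top (K := K) O O' R hRAM hCSQ hLIE hg hc hF.sq hS hθ hQS (hF.con Q hQS)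
      (fun w hw => (hQs Q hQS w hw).1) 𝔓 h𝔓 h3
    have hprod : (∏ P ∈ J, P) = Q * ∏ P ∈ J.erase Q, P := (Finset.mul_prod_erase J id hQ).symm
    have hnd : ¬ Q ∣ ∏ P ∈ J.erase Q, P := by
      intro hd
      obtain ⟨P, hP, hQP⟩ := ((hS Q hQS).2.1.prime.dvd_finset_prod_iff _).1 hd
      have hP' := Finset.mem_erase.1 hP
      have hPS := hS P (hJ hP'.2)
      exact hP'.1 (eq_of_monic_of_associated (hS Q hQS).1 hPS.1
        ((hS Q hQS).2.1.associated_of_dvd hPS.2.1 hQP)).symm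
    have hD' : w.valuation M (algebraMap k[X] M (∏ P ∈ J.erase Q, P)) = 1 := by
      refine val_eq_of _ w fun h => ?_
      obtain ⟨P, hP, hP'⟩ := ov_prod h
      have hPS := hJ (Finset.mem_of_mem_erase hP)
      exact Finset.ne_of_mem_erase hP
        (below_unique (hS P hPS).1 (hS P hPS).2.1 (hS Q hQS).1 (hS Q hQS).2.1 hP' hQw)
    have hl := hloc w
    rw [hsc, hprod, map_mul] at hl
    have e3 : algebraMap M Ω (algebraMap k[X] M Q * algebraMap k[X] M (∏ P ∈ J.erase Q, P)) =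
        algebraMap k[X] Ω (∏ P ∈ J, P) := by
      rw [hprod, ← map_mul, ← IsScalarTower.algebraMap_apply k[X] M Ω]
    have hsm : (s Q).Monic := (hS Q hQS).2.2.1
    have hsd : (s Q).natDegree = 2 * g := (hS Q hQS).2.2.2.1
    have h7 := hLOC2 M Ω R O' w 𝔓 hw (v2 w) g (f.map (algebraMap k[X] M)) h
      ((s Q).map (algebraMap k[X] R)) (algebraMap k[X] M Q)
      (algebraMap k[X] M (∏ P ∈ J.erase Q, P)) (algebraMap L Ω θ) hg hmon hdeg
      (hsm.map _) (by rw [hsm.natDegree_map, hsd])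
      (irr_top (hS Q hQS).2.1 w (hQs Q hQS w hQw).2 hQw (hS Q hQS).2.2.2.2.2)
      (fun j => by
        have e : (f.map (algebraMap k[X] M)).coeff j - algebraMap R M ((X * (s Q).map
            (algebraMap k[X] R)).coeff j) = algebraMap k[X] M (f.coeff j - (X * s Q).coeff j) := by
          have e1 : (X * (s Q).map (algebraMap k[X] R)) = (X * s Q).map (algebraMap k[X] R) := by
            rw [Polynomial.map_mul, map_X]
          rw [e1, coeff_map, coeff_map, ← IsScalarTower.algebraMap_apply k[X] R M, map_sub]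
        rw [e, ← ov_val]
        obtain ⟨c, hc'⟩ := hF.con Q hQS j
        unfold Ov at hQw ⊢
        rw [hc', map_mul]
        exact Ideal.mul_mem_right _ _ hQw) hroot h3
      (by rw [← IsScalarTower.algebraMap_apply k[X] M Ω]; exact h5) hD'
      (by
        have := h6 (-1) (fun h => (hS Q hQS).2.1.not_isUnit (isUnit_of_dvd_unit h isUnit_one.neg))
        rwa [map_neg, map_one] at this)
      (by rw [← IsScalarTower.algebraMap_apply k[X] M Ω]; exact h6 _ hnd) hl
      (by rw [e3]; exact h0)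
    rw [e3, ← IsScalarTower.algebraMap_apply k[X] M Ω] at h7
    exact h7

end top

end Pool.Agent.N874.TW
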